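import Mathlib
import Pool.Agent.N636.KO.Gen

/-!
MP_bc88c0_gt, Q1, partial answer (negative direction).  A Korovin orbit over an Abelian group of
cardinality `ℵ₁` is never normal, for every space `X`; the same holds for every group of uncountable
regular cardinality if the orbit projects onto all `X^M` with `|M| < |G|`.
-/

namespace Pool.Agent.Results.MP_bc88c0_gt.NoNormalOrbitAlephOne

open N636KO Cardinal

universe u v

theorem result :
    (∀ (G : Type u) [CommGroup G] (X : Type v) [TopologicalSpace X] [Nontrivial X] (f : G → X),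
      #G = ℵ₁ → IsKorovin f → ¬ (T1Space (orbit f) ∧ NormalSpace (orbit f))) ∧
    (∀ (G : Type u) [CommGroup G] (X : Type v) [TopologicalSpace X] [Nontrivial X] (f : G → X),
      (#G).IsRegular → ℵ₀ < #G → IsStrongKorovin f →
        ¬ (T1Space (orbit f) ∧ NormalSpace (orbit f))) :=
  ⟨fun _ _ _ _ _ f hG hf => aleph_one hG f hf,
    fun _ _ _ _ _ f hreg hunc hf => gen hreg hunc f hf⟩

end Pool.Agent.Results.MP_bc88c0_gt.NoNormalOrbitAlephOne
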